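import Pool.Agent.W345.GK.Gau
import Pool.Agent.W236.GK.TA10b

set_option autoImplicit false

open Polynomial Finset

namespace Pool.Agent.W991.GK

open Pool.Agent.W345.GK

theorem dig_le {q : ℕ} (hq : 0 < q) (κ j : ℕ) : dig q κ j ≤ q - 1 := by
  unfold dig
  have := Nat.mod_lt (κ / q ^ j) hq
  omega

theorem sum_dig (q κ d : ℕ) : ∑ j ∈ range d, dig q κ j * q ^ j = κ % q ^ d := by
  induction d with
  | zero => simp [Nat.mod_one]
  | succ d ih =>
    rw [Finset.sum_range_succ, ih, Nat.mod_pow_succ]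
    unfold dig
    ring

theorem sum_top {q : ℕ} (hq : 0 < q) (d : ℕ) : ∑ j ∈ range d, (q - 1) * q ^ j + 1 = q ^ d := by
  induction d with
  | zero => simp
  | succ d ih =>
    rw [Finset.sum_range_succ, pow_succ]
    obtain ⟨r, rfl⟩ : ∃ r, q = r + 1 := ⟨q - 1, by omega⟩
    simp only [Nat.add_sub_cancel] at ih ⊢
    nlinarith

theorem sum_e {q : ℕ} (hq : 0 < q) {κ d : ℕ} (hκ : κ < q ^ d) :
    ∑ j ∈ range d, (q - 1 - dig q κ j) * q ^ j = q ^ d - 1 - κ := by
  have h1 : ∑ j ∈ range d, (q - 1 - dig q κ j) * q ^ j + ∑ j ∈ range d, dig q κ j * q ^ j =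
      ∑ j ∈ range d, (q - 1) * q ^ j := by
    rw [← Finset.sum_add_distrib]
    apply Finset.sum_congr rfl
    intro j _
    rw [← add_mul, Nat.sub_add_cancel (dig_le hq κ j)]
  rw [sum_dig, Nat.mod_eq_of_lt hκ] at h1
  have h2 := sum_top hq d
  omega

theorem dvd_pow_sub (q j : ℕ) : (q - 1) ∣ (q ^ j - 1) := by
  simpa using Nat.sub_dvd_pow_sub_pow q 1 j

theorem dvd_sum {q : ℕ} (hq : 0 < q) (d : ℕ) (e : ℕ → ℕ)
    (h : (q - 1) ∣ ∑ j ∈ range d, e j * q ^ j) : (q - 1) ∣ ∑ j ∈ range d, e j := by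
  have h1 : ∑ j ∈ range d, e j * q ^ j = ∑ j ∈ range d, e j * (q ^ j - 1) + ∑ j ∈ range d, e j := by
    rw [← Finset.sum_add_distrib]
    apply Finset.sum_congr rfl
    intro j _
    have h2 : 1 ≤ q ^ j := Nat.one_le_pow _ _ hq
    obtain ⟨r, hr⟩ : ∃ r, q ^ j = r + 1 := ⟨q ^ j - 1, by omega⟩
    rw [hr]
    simp only [Nat.add_sub_cancel]
    ring
  rw [h1] at h
  refine (Nat.dvd_add_right (Finset.dvd_sum fun j _ => ?_)).1 h
  exact Dvd.dvd.mul_left (dvd_pow_sub q j) _

theorem det_sub {F : Type} [Field F] {n : ℕ} (M : Matrix (Fin n) (Fin n) F) (t : F) :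
    (aeval M (X - C t : F[X])).det = (-1) ^ n * M.charpoly.eval t := by
  rw [Matrix.eval_charpoly, map_sub, aeval_X, aeval_C]
  have h : M - algebraMap F (Matrix (Fin n) (Fin n) F) t =
      -(Matrix.scalar (Fin n) t - M) := by
    rw [neg_sub]
    rfl
  rw [h, Matrix.det_neg, Fintype.card_fin]

theorem det_prod {F : Type} [Field F] {n : ℕ} (M : Matrix (Fin n) (Fin n) F) (d : ℕ)
    (t : ℕ → F) (e : ℕ → ℕ) :
    (aeval M (∏ j ∈ range d, (X - C (t j) : F[X]) ^ e j)).det =
      ∏ j ∈ range d, ((-1) ^ n * M.charpoly.eval (t j)) ^ e j := by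
  induction d with
  | zero => simp
  | succ s ih =>
    rw [Finset.prod_range_succ, Finset.prod_range_succ, map_mul, Matrix.det_mul, ih, map_pow,
      Matrix.det_pow, det_sub]

theorem charpoly_map {k F : Type} [Field k] [Field F] [Algebra k F] {n : ℕ} (c : Fin n → k)
    (t : F) : ((Pool.Agent.W345.GK.comp c).map (algebraMap k F)).charpoly.eval t =
      aeval t (mon c) := by
  rw [Matrix.charpoly_map, Pool.Agent.W236.GK.charpoly_comp, Polynomial.eval_map_algebraMap]

/-- properties of the function rho -/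
theorem rho_ok : S_C3 → S_RHO := by
  intro hC3 k F _ _ _ _ P θ κ hP hPi hθ hκ0 hκ hκd
  obtain ⟨c1, c2, c3, c4, c5, c6⟩ := hC3 k F P θ hP hPi hθ
  set q := Fintype.card k with hq
  set d := P.natDegree with hd
  have hq1 : 1 < q := Fintype.one_lt_card
  have hq0 : 0 < q := by omega
  have hκ' : κ < q ^ d := by omega
  set E := q ^ d - 1 - κ with hE
  have hE0 : 0 < E := by omega
  have hEd : (q - 1) ∣ E := Nat.dvd_sub (dvd_pow_sub q d) hκd
  have hrho : ∀ a : k[X], rho d θ κ a = (aeval θ a) ^ E := by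
    intro a
    unfold rho
    rw [← hq]
    calc ∏ j ∈ range d, (aeval (θ ^ q ^ j) a) ^ (q - 1 - dig q κ j)
        = ∏ j ∈ range d, (aeval θ a) ^ ((q - 1 - dig q κ j) * q ^ j) := by
          apply Finset.prod_congr rfl
          intro j _
          rw [c4 a j, ← pow_mul, mul_comm]
      _ = (aeval θ a) ^ E := by
          rw [Finset.prod_pow_eq_pow_sum, sum_e hq0 hκ']
  have hu : ∀ u : k, u ≠ 0 → u ^ E = 1 := by
    intro u hu
    obtain ⟨r, hr⟩ := hEd
    rw [hr, pow_mul, hq, FiniteField.pow_card_sub_one_eq_one u hu, one_pow]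
  set e : ℕ → ℕ := fun j => q - 1 - dig q κ j with he
  have hsum : ∑ j ∈ range d, e j * q ^ j = E := sum_e hq0 hκ'
  have hN : (q - 1) ∣ ∑ j ∈ range d, e j := dvd_sum hq0 d e (by rw [hsum]; exact hEd)
  refine ⟨?_, ?_, ?_, ?_, ?_, ?_, ?_⟩
  · intro a b
    rw [hrho, hrho, map_sub, map_mul, hθ, zero_mul, sub_zero]
  · rw [hrho, map_zero, zero_pow hE0.ne']
  · intro u a hu0
    rw [hrho, hrho, map_mul, mul_pow, aeval_C, ← map_pow, hu u hu0, map_one, one_mul]
  · intro n c
    have h1 : RES c (RR q d θ κ) =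
        ∏ j ∈ range d, ((-1) ^ n * aeval (θ ^ q ^ j) (mon c)) ^ e j := by
      unfold RES RR
      rw [det_prod]
      apply Finset.prod_congr rfl
      intro j _
      rw [charpoly_map]
    rw [h1]
    have h2 : ∏ j ∈ range d, ((-1 : F) ^ n * aeval (θ ^ q ^ j) (mon c)) ^ e j =
        (∏ j ∈ range d, ((-1 : F) ^ n) ^ e j) *
          ∏ j ∈ range d, (aeval (θ ^ q ^ j) (mon c)) ^ e j := by
      rw [← Finset.prod_mul_distrib]
      apply Finset.prod_congr rfl
      intro j _
      rw [mul_pow]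
    have h3 : (∏ j ∈ range d, ((-1 : F) ^ n) ^ e j) = 1 := by
      rw [Finset.prod_pow_eq_pow_sum]
      obtain ⟨r, hr⟩ := hN
      rw [hr, ← pow_mul, mul_comm n, mul_assoc, pow_mul]
      have h4 : (-1 : F) ^ (q - 1) = 1 := by
        have h5 : (-1 : k) ^ (q - 1) = 1 := by
          rw [hq]
          exact FiniteField.pow_card_sub_one_eq_one (-1 : k) (neg_ne_zero.2 one_ne_zero)
        have h6 := congrArg (algebraMap k F) h5
        rw [map_pow, map_neg, map_one] at h6
        exact h6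
      rw [h4, one_pow]
    rw [h2, h3, one_mul]
    rfl
  · have h1 := c6 E hE0
    have h2 : ¬ (q ^ d - 1) ∣ E := by
      intro h
      have := Nat.le_of_dvd hE0 h
      omega
    rw [if_neg h2] at h1
    rw [← h1]
    apply Finset.sum_congr rfl
    intro a _
    rw [hrho]
  · intro a ha
    have h1 : aeval θ a ≠ 0 := fun h => ha ((c5 a).1 h)
    rw [hrho, ← pow_add]
    have h2 : E + κ = q ^ d - 1 := by omega
    rw [h2]
    have h3 : (aeval θ a) ^ (q ^ d) = aeval θ a := by
      rw [← c4 a d, c1]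
    have h4 : (aeval θ a) ^ (q ^ d - 1) * aeval θ a = 1 * aeval θ a := by
      rw [← pow_succ, one_mul]
      have h5 : q ^ d - 1 + 1 = q ^ d := by omega
      rw [h5, h3]
    exact mul_right_cancel₀ h1 h4
  · have hmon : ∀ j ∈ range d, ((X - C (θ ^ q ^ j) : F[X]) ^ (q - 1 - dig q κ j)).Monic :=
      fun j _ => (monic_X_sub_C _).pow _
    have hdeg : (RR q d θ κ).natDegree = ∑ j ∈ range d, e j := by
      unfold RR
      rw [natDegree_prod_of_monic _ _ hmon]
      apply Finset.sum_congr rfl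
      intro j _
      rw [(monic_X_sub_C _).natDegree_pow, natDegree_X_sub_C, mul_one]
    obtain ⟨r, hr⟩ := hN
    have hr0 : 0 < r := by
      rcases Nat.eq_zero_or_pos r with h0 | h0
      · exfalso
        rw [h0, mul_zero] at hr
        have h1 : ∀ j ∈ range d, e j = 0 := by
          intro j hj
          exact (Finset.sum_eq_zero_iff.1 hr) j hj
        have h2 : ∑ j ∈ range d, e j * q ^ j = 0 := by
          apply Finset.sum_eq_zero
          intro j hj
          rw [h1 j hj, zero_mul]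
        omega
      · exact h0
    have hrd : r ≤ d := by
      have h1 : ∑ j ∈ range d, e j ≤ (q - 1) * d := by
        calc ∑ j ∈ range d, e j ≤ ∑ _j ∈ range d, (q - 1) :=
              Finset.sum_le_sum fun j _ => Nat.sub_le _ _
          _ = (q - 1) * d := by
              rw [Finset.sum_const, card_range, smul_eq_mul, mul_comm]
      rw [hr] at h1
      exact Nat.le_of_mul_le_mul_left h1 (by omega)
    refine ⟨r - 1, by omega, ?_, ?_⟩
    · rw [hdeg, hr, Nat.sub_add_cancel hr0]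
    · unfold RR
      exact monic_prod_of_monic _ _ hmon

end Pool.Agent.W991.GK
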