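import Pool.Agent.W345.GK.TF

set_option autoImplicit false

open Polynomial Finset

namespace Pool.Agent.W991.GK

open Pool.Agent.W345.GK

/-- the sign change and reversal of the coefficient vector -/
def flip {k : Type} [Field k] (n : ℕ) : (Fin n → k) ≃ (Fin n → k) where
  toFun c i := (-1) ^ ((i : ℕ) + 1) * c (Fin.rev i)
  invFun c i := (-1) ^ ((Fin.rev i : ℕ) + 1) * c (Fin.rev i)
  left_inv c := by
    funext i
    simp only [Fin.rev_rev]
    rw [← mul_assoc, ← mul_pow]
    simp
  right_inv c := by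
    funext i
    simp only [Fin.rev_rev]
    rw [← mul_assoc, ← mul_pow]
    simp

/-- assembly of the trace formula -/
theorem tf : S_TA1 → S_TA8 → S_TA9 → S_TA10 → S_TF := by
  intro h1 h8 h9 h10 k L _ _ _ _ R M hR n
  obtain ⟨g, hg1, hg2, hg3⟩ := h10 k L n R
  rw [h1 L (Fintype.card k) R M n, h8 k L M n R g hR hg1 hg2, ← h9 k L M n g (hg2.trans hR)]
  rw [← (flip n).sum_comp (fun c : Fin n → k =>
    MvPolynomial.eval (fun i => algebraMap k L (c i)) g)]
  apply Finset.sum_congr rfl
  intro c _
  rw [hg3 c]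
  rfl

end Pool.Agent.W991.GK
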